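import Pool.Agent.Q37.GU.Stm

/-!
# Project GU (helper37), job P1
-/

set_option autoImplicit false

open scoped TensorProduct

namespace Pool.Agent.Q92.GU

open Pool.Agent.Q37.GU

section coef

variable {A A' B : Type} [CommRing A] [Algebra ℂ A] [CommRing A'] [Algebra ℂ A'] [CommRing B]
  [Algebra ℂ B] {ι : Type} (b : Module.Basis ι ℂ B)

/-- coefficients -/
noncomputable def cf (A : Type) [CommRing A] [Algebra ℂ A] (x : A ⊗[ℂ] B) (i : ι) : A :=
  (Algebra.TensorProduct.basis A b).repr x i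

/-- the map on tensor products -/
noncomputable def mp (B : Type) [CommRing B] [Algebra ℂ B] (f : A →ₐ[ℂ] A') :
    A ⊗[ℂ] B →ₐ[ℂ] A' ⊗[ℂ] B := Algebra.TensorProduct.map f (AlgHom.id ℂ B)

theorem cf_mp (f : A →ₐ[ℂ] A') (x : A ⊗[ℂ] B) (i : ι) : cf b A' (mp B f x) i = f (cf b A x i) := by
  unfold cf mp
  induction x using TensorProduct.induction_on with
  | zero => simp
  | tmul a c =>
    rw [Algebra.TensorProduct.map_tmul, Algebra.TensorProduct.basis_repr_tmul,
      Algebra.TensorProduct.basis_repr_tmul]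
    simp
  | add x y hx hy =>
    simp only [map_add, Finsupp.add_apply, hx, hy]

theorem cf_ext {x y : A ⊗[ℂ] B} (h : ∀ i, cf b A x i = cf b A y i) : x = y :=
  (Algebra.TensorProduct.basis A b).repr.injective (Finsupp.ext h)

theorem cf_zero (i : ι) : cf b A (0 : A ⊗[ℂ] B) i = 0 := by
  unfold cf
  simp

theorem mp_inj (f : A →ₐ[ℂ] A') (hf : Function.Injective f) : Function.Injective (mp B f) := by
  intro x y h
  let b := Module.Basis.ofVectorSpace ℂ B
  refine cf_ext b fun i => hf ?_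
  rw [← cf_mp, ← cf_mp, h]

theorem exists_lift (f : A →ₐ[ℂ] A') (x : A' ⊗[ℂ] B) (h : ∀ i, ∃ a, f a = cf b A' x i) :
    ∃ x' : A ⊗[ℂ] B, mp B f x' = x := by
  choose a ha using h
  refine ⟨∑ i ∈ ((Algebra.TensorProduct.basis A' b).repr x).support, a i ⊗ₜ b i, ?_⟩
  rw [map_sum]
  conv_rhs => rw [← (Algebra.TensorProduct.basis A' b).linearCombination_repr x]
  rw [Finsupp.linearCombination_apply, Finsupp.sum]
  refine Finset.sum_congr rfl fun i _ => ?_
  unfold mp
  rw [Algebra.TensorProduct.map_tmul, ha, Algebra.TensorProduct.basis_repr_symm_apply']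
  rfl

/-- evaluation -/
noncomputable def ev (A : Type) [CommRing A] [Algebra ℂ A] (y : B →ₐ[ℂ] ℂ) : A ⊗[ℂ] B →ₐ[ℂ] A :=
  Algebra.TensorProduct.lift (AlgHom.id ℂ A) ((Algebra.ofId ℂ A).comp y) (fun _ _ => Commute.all _ _)

theorem ev_mp (f : A →ₐ[ℂ] A') (y : B →ₐ[ℂ] ℂ) (x : A ⊗[ℂ] B) : ev A' y (mp B f x) = f (ev A y x) := by
  unfold ev mp
  induction x using TensorProduct.induction_on with
  | zero => simp
  | tmul a c => simp
  | add x y hx hy => simp only [map_add, hx, hy]

end coef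

section dom

theorem exists_point {A : Type} [CommRing A] [IsDomain A] [Algebra ℂ A]
    [Algebra.FiniteType ℂ A] {c : A} (hc : c ≠ 0) : ∃ φ : A →ₐ[ℂ] ℂ, φ c ≠ 0 := by
  let D := Localization.Away c
  have hnt : Nontrivial D := by
    have : IsDomain D := IsLocalization.isDomain_localization
      (powers_le_nonZeroDivisors_of_noZeroDivisors hc)
    infer_instance
  have hftD : Algebra.FiniteType ℂ D := by
    have h1 : Algebra.FiniteType A D :=
      IsLocalization.finiteType_of_monoid_fg (Submonoid.powers c) D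
    exact Algebra.FiniteType.trans inferInstance h1
  obtain ⟨M, hM⟩ := Ideal.exists_maximal D
  let _ : Field (D ⧸ M) := Ideal.Quotient.field M
  have hfin : Module.Finite ℂ (D ⧸ M) := finite_of_finite_type_of_isJacobsonRing ℂ (D ⧸ M)
  have hbij : Function.Bijective (algebraMap ℂ (D ⧸ M)) :=
    IsAlgClosed.algebraMap_bijective_of_isIntegral
  let e : ℂ ≃ₐ[ℂ] (D ⧸ M) := AlgEquiv.ofBijective (Algebra.ofId ℂ (D ⧸ M)) hbij
  let φ : A →ₐ[ℂ] ℂ := (e.symm : (D ⧸ M) →ₐ[ℂ] ℂ).comp
    ((Ideal.Quotient.mkₐ ℂ M).comp (IsScalarTower.toAlgHom ℂ A D))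
  refine ⟨φ, ?_⟩
  have hu : IsUnit (algebraMap A D c) :=
    IsLocalization.map_units D (⟨c, Submonoid.mem_powers c⟩ : Submonoid.powers c)
  have h1 : IsUnit (φ c) := hu.map ((e.symm : (D ⧸ M) →ₐ[ℂ] ℂ).comp (Ideal.Quotient.mkₐ ℂ M))
  exact h1.ne_zero

variable {A B : Type} [CommRing A] [Algebra ℂ A] [IsDomain A] [CommRing B] [Algebra ℂ B]
  [IsDomain B]

/-- the other evaluation -/
noncomputable def evl (φ : A →ₐ[ℂ] ℂ) : A ⊗[ℂ] B →ₐ[ℂ] B :=
  Algebra.TensorProduct.lift ((Algebra.ofId ℂ B).comp φ) (AlgHom.id ℂ B) (fun _ _ => Commute.all _ _)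

omit [IsDomain A] [IsDomain B] in
theorem repr_evl {ι : Type} (b : Module.Basis ι ℂ B) (φ : A →ₐ[ℂ] ℂ) (z : A ⊗[ℂ] B) (i : ι) :
    b.repr (evl φ z) i = φ (cf b A z i) := by
  unfold cf
  induction z using TensorProduct.induction_on with
  | zero => simp
  | tmul a a' =>
    rw [Algebra.TensorProduct.basis_repr_tmul]
    have h1 : evl φ (a ⊗ₜ a') = φ a • a' := by
      unfold evl
      rw [Algebra.TensorProduct.lift_tmul, Algebra.smul_def]
      rfl
    rw [h1, map_smul, Finsupp.smul_apply, Finsupp.smul_apply, Finsupp.mapRange_apply,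
      smul_eq_mul, smul_eq_mul, map_mul, AlgHom.commutes]
    rfl
  | add z z' hz hz' =>
    rw [map_add, map_add, map_add, Finsupp.add_apply, Finsupp.add_apply, map_add, hz, hz']

theorem nzd_ft [Algebra.FiniteType ℂ A] {ι : Type} (b : Module.Basis ι ℂ B) {x y : A ⊗[ℂ] B}
    (hxy : x * y = 0) : x = 0 ∨ y = 0 := by
  by_contra hcon
  push Not at hcon
  obtain ⟨hx, hy⟩ := hcon
  obtain ⟨i, hi⟩ : ∃ i, cf b A x i ≠ 0 := by
    by_contra h
    push Not at h
    exact hx (cf_ext b fun i => by rw [h i, cf_zero])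
  obtain ⟨l, hl⟩ : ∃ i, cf b A y i ≠ 0 := by
    by_contra h
    push Not at h
    exact hy (cf_ext b fun i => by rw [h i, cf_zero])
  obtain ⟨φ, hφ⟩ := exists_point (mul_ne_zero hi hl)
  rw [map_mul] at hφ
  have h2 : evl φ x * evl φ y = 0 := by rw [← map_mul, hxy, map_zero]
  rcases mul_eq_zero.mp h2 with h3 | h3
  · have h4 := repr_evl b φ x i
    rw [h3, map_zero, Finsupp.zero_apply] at h4
    rw [← h4, zero_mul] at hφ
    exact hφ rfl
  · have h4 := repr_evl b φ y l
    rw [h3, map_zero, Finsupp.zero_apply] at h4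
    rw [← h4, mul_zero] at hφ
    exact hφ rfl

theorem nzd {ι : Type} (b : Module.Basis ι ℂ B) {x y : A ⊗[ℂ] B} (hxy : x * y = 0) :
    x = 0 ∨ y = 0 := by
  classical
  let s : Finset A := ((Algebra.TensorProduct.basis A b).repr x).support.image (cf b A x) ∪
    ((Algebra.TensorProduct.basis A b).repr y).support.image (cf b A y)
  let A' := Algebra.adjoin ℂ (s : Set A)
  have hft : Algebra.FiniteType ℂ A' := Algebra.FiniteType.adjoin_of_finite s.finite_toSet
  have hx : ∀ i, ∃ a : A', A'.val a = cf b A x i := by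
    intro i
    by_cases hi : cf b A x i = 0
    · exact ⟨0, by rw [hi]; rfl⟩
    · refine ⟨⟨cf b A x i, Algebra.subset_adjoin ?_⟩, rfl⟩
      refine Finset.mem_coe.mpr (Finset.mem_union_left _ (Finset.mem_image_of_mem _ ?_))
      exact Finsupp.mem_support_iff.mpr hi
  have hy : ∀ i, ∃ a : A', A'.val a = cf b A y i := by
    intro i
    by_cases hi : cf b A y i = 0
    · exact ⟨0, by rw [hi]; rfl⟩
    · refine ⟨⟨cf b A y i, Algebra.subset_adjoin ?_⟩, rfl⟩
      refine Finset.mem_coe.mpr (Finset.mem_union_right _ (Finset.mem_image_of_mem _ ?_))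
      exact Finsupp.mem_support_iff.mpr hi
  obtain ⟨x', hx'⟩ := exists_lift b A'.val x hx
  obtain ⟨y', hy'⟩ := exists_lift b A'.val y hy
  have h1 : x' * y' = 0 := by
    apply mp_inj A'.val Subtype.val_injective
    rw [map_mul, hx', hy', hxy, map_zero]
  rcases nzd_ft b h1 with h | h
  · left
    rw [← hx', h, map_zero]
  · right
    rw [← hy', h, map_zero]

end dom

section main

variable {K B : Type} [Field K] [Algebra ℂ K] [CommRing B] [Algebra ℂ B] [IsDomain B]

omit [IsDomain B] in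
theorem normalize {ι : Type} (b : Module.Basis ι ℂ B) (V : ValuationSubring K) [Algebra ℂ V]
    (val : V →ₐ[ℂ] K) (hval : ∀ x : V, val x = (x : K)) {u : K ⊗[ℂ] B} (hu : u ≠ 0) :
    ∃ a : K, a ≠ 0 ∧ ∃ U : V ⊗[ℂ] B, (a ⊗ₜ[ℂ] (1 : B)) * mp B val U = u ∧ ∃ m, cf b V U m = 1 := by
  classical
  have h1 : ((Algebra.TensorProduct.basis K b).repr u).support.Nonempty := by
    rw [Finsupp.support_nonempty_iff]
    intro h
    exact hu ((Algebra.TensorProduct.basis K b).repr.injective (by rw [h, map_zero]))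
  obtain ⟨m, hm, hmax⟩ := Finset.exists_max_image _ (fun i => V.valuation (cf b K u i)) h1
  have hm0 : cf b K u m ≠ 0 := Finsupp.mem_support_iff.mp hm
  set a := cf b K u m with ha
  have hcf : ∀ (c : K) (z : K ⊗[ℂ] B) (i : ι), cf b K ((c ⊗ₜ[ℂ] (1 : B)) * z) i = c * cf b K z i := by
    intro c z i
    have h2 : (c ⊗ₜ[ℂ] (1 : B)) * z = c • z := by
      rw [Algebra.smul_def]
      rfl
    unfold cf
    rw [h2, map_smul, Finsupp.smul_apply, smul_eq_mul]
  have h3 : ∀ i, ∃ v : V, val v = cf b K ((a⁻¹ ⊗ₜ[ℂ] (1 : B)) * u) i := by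
    intro i
    rw [hcf]
    have h4 : V.valuation (a⁻¹ * cf b K u i) ≤ 1 := by
      by_cases hi : cf b K u i = 0
      · rw [hi, mul_zero, map_zero]
        exact zero_le
      · have h5 := hmax i (Finsupp.mem_support_iff.mpr hi)
        rw [map_mul, map_inv₀]
        have h6 : V.valuation a ≠ 0 := (Valuation.ne_zero_iff _).mpr hm0
        rw [inv_mul_le_iff₀ (zero_lt_iff.mpr h6), mul_one]
        exact h5
    exact ⟨⟨_, (V.valuation_le_one_iff _).mp h4⟩, hval _⟩
  obtain ⟨U, hU⟩ := exists_lift b val _ h3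
  refine ⟨a, hm0, U, ?_, m, ?_⟩
  · rw [hU, ← mul_assoc, Algebra.TensorProduct.tmul_mul_tmul, mul_inv_cancel₀ hm0, mul_one,
      ← Algebra.TensorProduct.one_def, one_mul]
  · have h7 := cf_mp b val U m
    rw [hU, hcf, ← ha, inv_mul_cancel₀ hm0, hval] at h7
    exact Subtype.ext h7.symm

theorem t_P1 : S_P1 := by
  intro K B _ _ _ _ _ V hV u u' huu y y'
  let i0 : ℂ →+* V := (algebraMap ℂ K).codRestrict V.toSubring hV
  let _ : Algebra ℂ V := i0.toAlgebra
  let val : V →ₐ[ℂ] K := { V.subtype with commutes' := fun c => rfl }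
  have hval : ∀ x : V, val x = (x : K) := fun _ => rfl
  have hvalinj : Function.Injective val := Subtype.val_injective
  let res : V →ₐ[ℂ] IsLocalRing.ResidueField V := IsScalarTower.toAlgHom ℂ V _
  let b := Module.Basis.ofVectorSpace ℂ B
  have hK : Nontrivial (K ⊗[ℂ] B) := (evK y : K ⊗[ℂ] B →ₐ[ℂ] K).toRingHom.domain_nontrivial
  have hu : u ≠ 0 := by
    rintro rfl
    rw [zero_mul] at huu
    exact zero_ne_one huu
  have hu' : u' ≠ 0 := by
    rintro rfl
    rw [mul_zero] at huu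
    exact zero_ne_one huu
  obtain ⟨a, ha, U, hU, m, hm⟩ := normalize b V val hval hu
  obtain ⟨a', ha', U', hU', m', hm'⟩ := normalize b V val hval hu'
  have hev : ∀ (z : B →ₐ[ℂ] ℂ) (c : K) (w : V ⊗[ℂ] B),
      evK z ((c ⊗ₜ[ℂ] (1 : B)) * mp B val w) = c * (ev V z w : K) := by
    intro z c w
    rw [map_mul, show evK z (mp B val w) = val (ev V z w) from ev_mp val z w, hval]
    congr 1
    unfold evK
    rw [Algebra.TensorProduct.lift_tmul]
    simp
  have h1 : mp B val (U * U') = (a * a')⁻¹ ⊗ₜ[ℂ] (1 : B) := by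
    have h2 : ((a * a') ⊗ₜ[ℂ] (1 : B)) * mp B val (U * U') = 1 := by
      rw [← huu, ← hU, ← hU', map_mul]
      have h3 : ((a * a') ⊗ₜ[ℂ] (1 : B)) = (a ⊗ₜ[ℂ] (1 : B)) * (a' ⊗ₜ[ℂ] (1 : B)) := by
        rw [Algebra.TensorProduct.tmul_mul_tmul, mul_one]
      rw [h3]
      ring
    calc mp B val (U * U') = ((a * a')⁻¹ ⊗ₜ[ℂ] (1 : B)) *
          (((a * a') ⊗ₜ[ℂ] (1 : B)) * mp B val (U * U')) := by
          rw [← mul_assoc, Algebra.TensorProduct.tmul_mul_tmul,
            inv_mul_cancel₀ (mul_ne_zero ha ha'), mul_one, ← Algebra.TensorProduct.one_def, one_mul]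
      _ = _ := by rw [h2, mul_one]
  set d : V := ev V y (U * U') with hd
  have hdv : (d : K) = (a * a')⁻¹ := by
    have h4 := hev y 1 (U * U')
    rw [h1, one_mul, ← Algebra.TensorProduct.one_def, one_mul] at h4
    rw [← h4]
    unfold evK
    rw [Algebra.TensorProduct.lift_tmul]
    simp
  have h5 : U * U' = d ⊗ₜ[ℂ] (1 : B) := by
    apply mp_inj val hvalinj
    rw [h1]
    unfold mp
    rw [Algebra.TensorProduct.map_tmul, hval, hdv]
    rfl
  have hdu : IsUnit d := by
    by_contra hnu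
    have h6 : res d = 0 := by
      change IsLocalRing.residue V d = 0
      rw [IsLocalRing.residue_eq_zero_iff]
      exact hnu
    have h7 : mp B res U * mp B res U' = 0 := by
      rw [← map_mul, h5]
      unfold mp
      rw [Algebra.TensorProduct.map_tmul, h6, TensorProduct.zero_tmul]
    rcases nzd b h7 with h8 | h8
    · have h9 := cf_mp b res U m
      rw [h8, cf_zero, hm, map_one] at h9
      exact zero_ne_one h9
    · have h9 := cf_mp b res U' m'
      rw [h8, cf_zero, hm', map_one] at h9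
      exact zero_ne_one h9
  have main : ∀ z : B →ₐ[ℂ] ℂ, V.valuation (evK z u) = V.valuation a := by
    intro z
    have h10 : ev V z U * ev V z U' = d := by
      rw [← map_mul, h5]
      unfold ev
      rw [Algebra.TensorProduct.lift_tmul]
      simp
    have h11 : IsUnit (ev V z U) := isUnit_of_mul_isUnit_left (h10 ▸ hdu)
    rw [← hU, hev, map_mul, (V.valuation_eq_one_iff _).mp h11, mul_one]
  rw [main y, main y']

end main

end Pool.Agent.Q92.GU
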