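import Pool.Agent.Q37.GU.Stm

/-!
# Project GU (helper37), job P2
-/

set_option autoImplicit false

namespace Pool.Agent.Q92.GU

open Pool.Agent.Q37.GU

theorem t_P2 : S_P2 := by
  intro K _ _ f hf
  have key : ∀ x : K, IsIntegral ℂ x → ∃ c : ℂ, x = algebraMap ℂ K c := by
    intro x hx
    have h1 : Algebra.IsIntegral ℂ (Algebra.adjoin ℂ {x}) :=
      Algebra.IsIntegral.adjoin (by
        intro y hy
        rw [Set.mem_singleton_iff.mp hy]
        exact hx)
    obtain ⟨c, hc⟩ := (IsAlgClosed.algebraMap_bijective_of_isIntegral (k := ℂ)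
      (K := Algebra.adjoin ℂ {x})).2 ⟨x, Algebra.self_mem_adjoin_singleton ℂ x⟩
    exact ⟨c, (congrArg Subtype.val hc).symm⟩
  by_contra hc
  have hR : IsIntegrallyClosedIn ((⊥ : Subalgebra ℂ K).toSubring) K := by
    rw [Subring.isIntegrallyClosedIn_iff]
    intro x hx
    have h2 : IsIntegral (⊥ : Subalgebra ℂ K) x := hx
    have h3 : Algebra.IsIntegral ℂ (⊥ : Subalgebra ℂ K) := by
      constructor
      rintro ⟨y, hy⟩
      obtain ⟨c, hc'⟩ := Algebra.mem_bot.mp hy
      have : (⟨y, hy⟩ : (⊥ : Subalgebra ℂ K)) = algebraMap ℂ (⊥ : Subalgebra ℂ K) c :=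
        Subtype.ext hc'.symm
      rw [this]
      exact isIntegral_algebraMap
    have h4 : IsIntegral ℂ x := isIntegral_trans (A := (⊥ : Subalgebra ℂ K)) x h2
    obtain ⟨c, rfl⟩ := key x h4
    exact (⊥ : Subalgebra ℂ K).algebraMap_mem c
  have hfR : f ∉ (⊥ : Subalgebra ℂ K).toSubring := by
    intro h
    obtain ⟨c, hc'⟩ := Algebra.mem_bot.mp h
    exact hc ⟨c, hc'.symm⟩
  obtain ⟨V, hV, hfV⟩ := Subring.exists_le_valuationSubring_of_isIntegrallyClosedIn hfR
  exact hfV (hf V fun c => hV ((⊥ : Subalgebra ℂ K).algebraMap_mem c))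

end Pool.Agent.Q92.GU
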